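import Pool.Agent.N173.BG.Stm

/-!
Project MSB (helper173), part MUL (helper27): small multiples.
-/

set_option autoImplicit false

namespace Pool.Agent.N27.BG

open Pool.Agent.TH858 Pool.Agent.TH858.CB

theorem t_MUL : Pool.Agent.N173.BG.S_MUL := by
  intro N _ c J hJ h
  obtain ⟨v, hv⟩ : ∃ v : ℝ, v = (c.val : ℝ) / N + ((-round ((c.val : ℝ) / N) : ℤ) : ℝ) := ⟨_, rfl⟩
  have h1 : nn c = |v| := by
    unfold nn nint
    rw [hv]
    push_cast
    rw [sub_eq_add_neg]
  have h2 : ∀ j : ℕ, nint ((j : ℝ) * v) = nn ((j : ZMod N) * c) := by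
    intro j
    have := nint_mul c (j : ℤ) (-round ((c.val : ℝ) / N))
    rw [hv]
    exact_mod_cast this
  have h3 : ∀ j : ℕ, 1 ≤ j → j ≤ J → |(j : ℝ) * v| ≤ 1 / 100 := by
    intro j
    induction j with
    | zero => intro h; omega
    | succ j ih =>
      intro _ hj
      have hv1 : |v| ≤ 1 / 100 := by
        have := h 1 le_rfl hJ
        rwa [Nat.cast_one, one_mul, h1] at this
      have h4 : |(j : ℝ) * v| ≤ 1 / 100 := by
        rcases Nat.eq_zero_or_pos j with rfl | hj0
        · rw [Nat.cast_zero, zero_mul, abs_zero]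
          norm_num
        · exact ih hj0 (by omega)
      have h5 : |((j + 1 : ℕ) : ℝ) * v| < 1 / 2 := by
        have h6 : ((j + 1 : ℕ) : ℝ) * v = (j : ℝ) * v + v := by
          push_cast
          ring
        rw [h6]
        have := abs_add_le ((j : ℝ) * v) v
        linarith
      have h7 := h (j + 1) (by omega) hj
      rw [← h2, nint_of_small h5] at h7
      exact h7
  have h4 := h3 J hJ le_rfl
  have hJ0 : (0 : ℝ) < J := by exact_mod_cast hJ
  rw [abs_mul, abs_of_pos hJ0] at h4
  rw [h1, le_div_iff₀ (by positivity)]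
  linarith

end Pool.Agent.N27.BG
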